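import Pool.Agent.W564.MM.Defs2

/-!
# Project MM, part UNI
-/

set_option autoImplicit false

open MeasureTheory Filter Topology Finset

namespace Pool.Agent.W622.MM

open Pool.Agent.W564.MM

lemma coe_inj {s x y : ℝ} (hx : x ∈ Set.Ico s (s + 1)) (hy : y ∈ Set.Ico s (s + 1)) :
    ((x : T1) = (y : T1)) ↔ x = y :=
  AddCircle.coe_eq_coe_iff_of_mem_Ico (p := (1:ℝ)) (a := s) hx hy

lemma arc_meas (s l : ℝ) (hl : l ≤ 1) : MeasurableSet (arc s l) := by
  unfold arc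
  apply measurableSet_Ico.image_of_continuousOn_injOn
  · exact (AddCircle.continuous_mk' (1:ℝ)).continuousOn
  · intro x hx y hy hxy
    exact (coe_inj (s := s) ⟨hx.1, by linarith [hx.2]⟩ ⟨hy.1, by linarith [hy.2]⟩).1 hxy

lemma arc_vol (s l : ℝ) (h0 : 0 ≤ l) (hl : l ≤ 1) : volume.real (arc s l) = l := by
  have h1 := (UnitAddCircle.measurePreserving_mk s).measure_preimage
    (arc_meas s l hl).nullMeasurableSet
  have hm : MeasurableSet ((fun x : ℝ => (x : T1)) ⁻¹' arc s l) :=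
    (AddCircle.continuous_mk' (1:ℝ)).measurable (arc_meas s l hl)
  have h2 : volume (arc s l) = ENNReal.ofReal l := by
    rw [← h1, ← Measure.restrict_congr_set (Ioo_ae_eq_Ioc (μ := (volume : Measure ℝ))),
      Measure.restrict_apply hm]
    have e : ((fun x : ℝ => (x : T1)) ⁻¹' arc s l) ∩ Set.Ioo s (s + 1) = Set.Ioo s (s + l) := by
      ext x
      constructor
      · rintro ⟨⟨y, hy, hxy⟩, hx⟩
        have : y = x := (coe_inj (s := s) ⟨hy.1, by linarith [hy.2]⟩ ⟨hx.1.le, hx.2⟩).1 hxy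
        subst this
        exact ⟨hx.1, hy.2⟩
      · intro hx
        exact ⟨⟨x, ⟨hx.1.le, hx.2⟩, rfl⟩, hx.1, by linarith [hx.2]⟩
    rw [e, Real.volume_Ioo]
    congr 1
    ring
  rw [Measure.real, h2, ENNReal.toReal_ofReal h0]

lemma arc_full (s : ℝ) : arc s 1 = Set.univ := by
  unfold arc
  exact AddCircle.coe_image_Ico_eq (1:ℝ) s

lemma arc_zero (s : ℝ) : arc s 0 = ∅ := by
  unfold arc
  simp

lemma arc_shift (s l : ℝ) (k : ℤ) : arc (s + k) l = arc s l := by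
  unfold arc
  have hk : ∀ x : ℝ, ((x + (k:ℝ) : ℝ) : T1) = (x : T1) := by
    intro x
    have := AddCircle.coe_add_period (1:ℝ)
    rw [AddCircle.coe_add]
    have h2 : (((k:ℝ)) : T1) = 0 := by
      rw [AddCircle.coe_eq_zero_iff]
      exact ⟨k, by simp⟩
    rw [h2, add_zero]
  ext z
  constructor
  · rintro ⟨x, hx, rfl⟩
    refine ⟨x - k, ⟨by linarith [hx.1], by linarith [hx.2]⟩, ?_⟩
    have := hk (x - k)
    rw [sub_add_cancel] at this
    exact this.symm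
  · rintro ⟨x, hx, rfl⟩
    refine ⟨x + k, ⟨by linarith [hx.1], by linarith [hx.2]⟩, hk x⟩

lemma arc_mono {s l s' l' : ℝ} (h1 : s' ≤ s) (h2 : s + l ≤ s' + l') : arc s l ⊆ arc s' l' := by
  unfold arc
  exact Set.image_mono (Set.Ico_subset_Ico h1 h2)

/-- reduction of the starting point of a grid arc -/
lemma arc_red (N : ℕ) (hN : 1 ≤ N) (i : ℤ) (l : ℝ) :
    ∃ i' : Fin (N + 1), arc ((i:ℝ) / N) l = arc ((i' : ℕ) / (N:ℝ)) l := by
  have hN0 : (N:ℝ) ≠ 0 := by positivity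
  have hNz : (N:ℤ) ≠ 0 := by positivity
  have hNp : (0:ℤ) < N := by positivity
  have h1 : 0 ≤ i % (N:ℤ) := Int.emod_nonneg _ hNz
  have h2 : i % (N:ℤ) < N := Int.emod_lt_of_pos _ hNp
  refine ⟨⟨(i % (N:ℤ)).toNat, by omega⟩, ?_⟩
  have h3 : ((((i % (N:ℤ)).toNat : ℕ) : ℝ)) = ((i % (N:ℤ) : ℤ) : ℝ) := by
    have : (((i % (N:ℤ)).toNat : ℕ) : ℤ) = i % (N:ℤ) := Int.toNat_of_nonneg h1
    exact_mod_cast congrArg (fun z : ℤ => (z : ℝ)) this
  simp only
  rw [h3]
  have h4 : (i:ℝ) / N = ((i % (N:ℤ) : ℤ) : ℝ) / N + ((i / (N:ℤ) : ℤ) : ℝ) := by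
    have h5 : (i:ℝ) = ((i % (N:ℤ) : ℤ) : ℝ) + (N:ℝ) * ((i / (N:ℤ) : ℤ) : ℝ) := by
      have := Int.emod_add_mul_ediv i N
      exact_mod_cast congrArg (fun z : ℤ => (z : ℝ)) this.symm
    rw [h5]
    field_simp
  rw [h4, arc_shift]

/-- outer grid arc -/
lemma outer (N : ℕ) (hN : 1 ≤ N) (s l : ℝ) (h0 : 0 ≤ l) (h1 : l ≤ 1) :
    ∃ i j : Fin (N + 1), arc s l ⊆ arc ((i : ℕ) / (N:ℝ)) ((j : ℕ) / (N:ℝ)) ∧
      l ≤ ((j : ℕ) / (N:ℝ)) ∧ ((j : ℕ) / (N:ℝ)) ≤ l + 2 / N ∧ ((j : ℕ) / (N:ℝ)) ≤ 1 := by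
  have hN0 : (0:ℝ) < N := by positivity
  by_cases hc : 1 ≤ l + 2 / N
  · refine ⟨0, Fin.last N, ?_, ?_, ?_, ?_⟩
    · rw [Fin.val_last, div_self hN0.ne', arc_full]
      exact Set.subset_univ _
    · rw [Fin.val_last, div_self hN0.ne']; exact h1
    · rw [Fin.val_last, div_self hN0.ne']; exact hc
    · rw [Fin.val_last, div_self hN0.ne']
  · push Not at hc
    have f1 := Int.floor_le (N * s)
    have f2 := Int.lt_floor_add_one (N * s)
    have c1 := Int.le_ceil (N * (s + l))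
    have c2 := Int.ceil_lt_add_one (N * (s + l))
    set u : ℤ := ⌊N * s⌋
    set w : ℤ := ⌈N * (s + l)⌉
    have hl' : (N:ℝ) * l + 2 < N := by
      have := mul_lt_mul_of_pos_left hc hN0
      rw [mul_add, mul_one] at this
      field_simp at this
      linarith
    have hNl : 0 ≤ (N:ℝ) * l := by positivity
    have huw : u ≤ w := by
      have : (u:ℝ) ≤ w := by nlinarith
      exact_mod_cast this
    have hwN : w - u ≤ N := by
      have : (w:ℝ) - u ≤ N := by nlinarith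
      exact_mod_cast this
    obtain ⟨i, hi⟩ := arc_red N hN u (((w - u : ℤ) : ℝ) / N)
    refine ⟨i, ⟨(w - u).toNat, by omega⟩, ?_, ?_⟩
    · have h3 : ((((w - u).toNat : ℕ) : ℝ)) = ((w - u : ℤ) : ℝ) := by
        have : (((w - u).toNat : ℕ) : ℤ) = w - u := Int.toNat_of_nonneg (by omega)
        exact_mod_cast congrArg (fun z : ℤ => (z : ℝ)) this
      simp only
      rw [h3, ← hi]
      apply arc_mono
      · rw [div_le_iff₀ hN0]; linarith
      · rw [← add_div, le_div_iff₀ hN0]; push_cast; linarith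
    · have h3 : ((((w - u).toNat : ℕ) : ℝ)) = ((w - u : ℤ) : ℝ) := by
        have : (((w - u).toNat : ℕ) : ℤ) = w - u := Int.toNat_of_nonneg (by omega)
        exact_mod_cast congrArg (fun z : ℤ => (z : ℝ)) this
      simp only
      rw [h3]
      push_cast
      refine ⟨?_, ?_, ?_⟩
      · rw [le_div_iff₀ hN0]; nlinarith
      · rw [div_le_iff₀ hN0, add_mul, div_mul_cancel₀ _ hN0.ne']; nlinarith
      · rw [div_le_iff₀ hN0]; nlinarith

/-- inner grid arc -/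
lemma inner (N : ℕ) (hN : 1 ≤ N) (s l : ℝ) (h0 : 0 ≤ l) (h1 : l ≤ 1) :
    ∃ i j : Fin (N + 1), arc ((i : ℕ) / (N:ℝ)) ((j : ℕ) / (N:ℝ)) ⊆ arc s l ∧
      l - 2 / N ≤ ((j : ℕ) / (N:ℝ)) ∧ ((j : ℕ) / (N:ℝ)) ≤ l := by
  have hN0 : (0:ℝ) < N := by positivity
  have f1 := Int.floor_le (N * (s + l))
  have f2 := Int.lt_floor_add_one (N * (s + l))
  have c1 := Int.le_ceil (N * s)
  have c2 := Int.ceil_lt_add_one (N * s)
  set w : ℤ := ⌊N * (s + l)⌋
  set u : ℤ := ⌈N * s⌉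
  by_cases hc : u ≤ w
  · have hNl : 0 ≤ (N:ℝ) * l := by positivity
    have hNl' : (N:ℝ) * l ≤ N := by nlinarith
    have hwN : w - u ≤ N := by
      have : (w:ℝ) - u ≤ N := by nlinarith
      exact_mod_cast this
    obtain ⟨i, hi⟩ := arc_red N hN u (((w - u : ℤ) : ℝ) / N)
    have h3 : ((((w - u).toNat : ℕ) : ℝ)) = ((w - u : ℤ) : ℝ) := by
      have : (((w - u).toNat : ℕ) : ℤ) = w - u := Int.toNat_of_nonneg (by omega)
      exact_mod_cast congrArg (fun z : ℤ => (z : ℝ)) this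
    refine ⟨i, ⟨(w - u).toNat, by omega⟩, ?_, ?_, ?_⟩
    · simp only
      rw [h3, ← hi]
      apply arc_mono
      · rw [le_div_iff₀ hN0]; linarith
      · rw [← add_div, div_le_iff₀ hN0]; push_cast; linarith
    · simp only
      rw [h3, le_div_iff₀ hN0, sub_mul, div_mul_cancel₀ _ hN0.ne']; push_cast; nlinarith
    · simp only
      rw [h3, div_le_iff₀ hN0]; push_cast; nlinarith
  · push Not at hc
    refine ⟨0, 0, ?_, ?_, ?_⟩
    · simp [arc_zero]
    · have : (w:ℝ) < u := by exact_mod_cast hc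
      have h5 : (N:ℝ) * l ≤ 2 := by nlinarith
      have h6 : l ≤ 2 / N := by rw [le_div_iff₀ hN0]; linarith
      simp
      linarith
    · simpa using h0

theorem uni (h : S_INV) : S_UNI := by
  intro ε hε
  obtain ⟨N, hN⟩ := exists_nat_gt (8 / ε + 1)
  have hN1 : 1 ≤ N := by
    have : (0:ℝ) < N := lt_trans (by positivity) hN
    exact_mod_cast this
  have hN0 : (0:ℝ) < N := by positivity
  have hNe : 4 / (N:ℝ) ≤ ε / 2 := by
    rw [div_le_iff₀ hN0]
    have : 8 / ε < N := by linarith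
    rw [div_lt_iff₀ hε] at this
    linarith
  let box : (Fin (N + 1) × Fin (N + 1)) × (Fin (N + 1) × Fin (N + 1)) → Set (T1 × T1) := fun q =>
    arc ((q.1.1 : ℕ) / (N:ℝ)) ((q.1.2 : ℕ) / (N:ℝ)) ×ˢ arc ((q.2.1 : ℕ) / (N:ℝ)) ((q.2.2 : ℕ) / (N:ℝ))
  have hfr : ∀ j : Fin (N + 1), (0:ℝ) ≤ ((j : ℕ) / (N:ℝ)) ∧ ((j : ℕ) / (N:ℝ)) ≤ 1 := by
    intro j
    refine ⟨by positivity, ?_⟩
    rw [div_le_one hN0]
    exact_mod_cast Nat.lt_succ_iff.1 j.2
  have hmeas : ∀ q, MeasurableSet (box q) := fun q =>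
    (arc_meas _ _ (hfr _).2).prod (arc_meas _ _ (hfr _).2)
  have hvol : ∀ q, volume.real (box q) = ((q.1.2 : ℕ) / (N:ℝ)) * ((q.2.2 : ℕ) / (N:ℝ)) := by
    intro q
    have : volume.real (box q) = (volume : Measure T1).real (arc ((q.1.1 : ℕ) / (N:ℝ)) ((q.1.2 : ℕ) / (N:ℝ)))
        * (volume : Measure T1).real (arc ((q.2.1 : ℕ) / (N:ℝ)) ((q.2.2 : ℕ) / (N:ℝ))) := by
      rw [Measure.volume_eq_prod]
      exact measureReal_prod_prod _ _
    rw [this, arc_vol _ _ (hfr _).1 (hfr _).2, arc_vol _ _ (hfr _).1 (hfr _).2]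
  choose a0 ha0 using fun q => h (box q) (hmeas q) (ε / 4) (by positivity)
  refine ⟨∑ q, |a0 q|, ?_⟩
  intro a ha A hA hinv s l s' l' h0 h1 h0' h1'
  have key : ∀ q, |volume.real (A ∩ box q) - volume.real A * (((q.1.2 : ℕ) / (N:ℝ)) * ((q.2.2 : ℕ) / (N:ℝ)))| ≤ ε / 4 := by
    intro q
    have h5 : a0 q ≤ |a| := by
      refine (le_abs_self _).trans (le_trans ?_ ha)
      exact Finset.single_le_sum (f := fun q => |a0 q|) (fun _ _ => abs_nonneg _) (Finset.mem_univ q)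
    have := ha0 q a h5 A hA hinv
    rwa [hvol q] at this
  haveI hpr : IsProbabilityMeasure (volume : Measure T1) :=
    ⟨by rw [show (Set.univ : Set T1) = arc 0 1 from (arc_full 0).symm]
        have := arc_vol 0 1 zero_le_one le_rfl
        rw [Measure.real, ENNReal.toReal_eq_one_iff] at this
        exact this⟩
  haveI : IsProbabilityMeasure (volume : Measure (T1 × T1)) := by
    rw [Measure.volume_eq_prod]; infer_instance
  have hA1 : volume.real A ≤ 1 := measureReal_le_one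
  have hA0 : 0 ≤ volume.real A := measureReal_nonneg
  obtain ⟨i, j, o1, o2, o3, o4⟩ := outer N hN1 s l h0 h1
  obtain ⟨i', j', o1', o2', o3', o4'⟩ := outer N hN1 s' l' h0' h1'
  obtain ⟨k, m, n1, n2, n3⟩ := inner N hN1 s l h0 h1
  obtain ⟨k', m', n1', n2', n3'⟩ := inner N hN1 s' l' h0' h1'
  have up := (abs_le.1 (key ((i, j), (i', j')))).2
  have lo := (abs_le.1 (key ((k, m), (k', m')))).1
  have up' : volume.real (A ∩ arc s l ×ˢ arc s' l') ≤ volume.real (A ∩ box ((i, j), (i', j'))) :=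
    measureReal_mono (Set.inter_subset_inter_right _ (Set.prod_mono o1 o1'))
  have lo' : volume.real (A ∩ box ((k, m), (k', m'))) ≤ volume.real (A ∩ arc s l ×ˢ arc s' l') :=
    measureReal_mono (Set.inter_subset_inter_right _ (Set.prod_mono n1 n1'))
  simp only at up lo
  have hm0 := (hfr m).1
  have hm0' := (hfr m').1
  generalize ((j : ℕ) / (N:ℝ)) = J at *
  generalize ((j' : ℕ) / (N:ℝ)) = J' at *
  generalize ((m : ℕ) / (N:ℝ)) = M at *
  generalize ((m' : ℕ) / (N:ℝ)) = M' at *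
  have hd : 2 / (N:ℝ) ≤ ε / 4 := by
    have : 4 / (N:ℝ) = 2 * (2 / N) := by ring
    linarith
  generalize 2 / (N:ℝ) = δ at *
  generalize volume.real A = V at *
  have e1 : V * (J * J') - V * (l * l') ≤ 2 * δ := by
    have : J * J' - l * l' ≤ 2 * δ := by nlinarith
    have h2 : 0 ≤ J * J' - l * l' := by nlinarith
    nlinarith
  have e2 : V * (l * l') - V * (M * M') ≤ 2 * δ := by
    have : l * l' - M * M' ≤ 2 * δ := by nlinarith
    have h2 : 0 ≤ l * l' - M * M' := by nlinarith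
    nlinarith
  rw [abs_le]
  constructor <;> linarith

end Pool.Agent.W622.MM
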